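import Pool.Agent.H90.HopfA

namespace Pool.Agent.Results.MP_4ba699_an.Counter

open Pool.Agent.H90.Hopf Filter Topology Set
open scoped ContDiff

theorem result (d : ℕ) (hd : 1 ≤ d) (m : ℕ) :
    ∃ u v : Pt d → ℝ, ContDiff ℝ ∞ u ∧ ContDiff ℝ ∞ v ∧
      (∀ p ∈ Om d, v p ≤ u p ∧ 0 ≤ v p) ∧
      (∀ y, ‖y‖ < 1 → u (0, y) = v (0, y)) ∧ u 0 = 0 ∧ v 0 = 0 ∧
      grad u 0 none = 0 ∧ (∀ p ∈ Om d, 0 < grad u p none) ∧
      (∀ t s y, 0 ≤ t → t ≤ 1 → 0 < s → s < 1 → ‖y‖ < 1 → u (t, y) = v (s, y) →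
        sigma m u (t, y) ≤ sigma m v (s, y)) ∧
      ContDiffOn ℝ ∞ (fun p : Pt d => if 0 ≤ p.1 then v p else u (-p.1, p.2))
        {p | |p.1| < 1 ∧ ‖p.2‖ < 1} ∧
      ¬ u =ᶠ[𝓝[closure (Om d)] 0] v ∧ ¬ v =ᶠ[𝓝[closure (Om d)] 0] fun _ => 0 := by
  refine ⟨uu, vv, uu_smooth, PP_smooth _, fun p hp => ?_, fun y _ => ?_, ?_, ?_, ?_,
    fun p hp => ?_, fun t s y ht _ hs _ _ h => ?_, ?_, freq hd fun p hp h0 => ?_,
    freq hd fun p hp h0 => ?_⟩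
  · obtain ⟨-, h1, h2⟩ := hp
    have h3 := expNegInvGlue.nonneg p.1
    have h4 : 0 ≤ (‖p.2‖ ^ 2) ^ 2 := by positivity
    simp only [uu, vv, PP]
    constructor <;> nlinarith
  · simp [uu, vv, PP]
  · simp [uu, PP]
  · simp [vv, PP]
  · simp [grad, uu_deriv, PP_deriv, bv, dphi_zero 0 le_rfl]
  · have h1 := dphi_pos hp.2.1
    simp only [grad, uu_deriv, PP_deriv, bv, inner_zero_right]
    have h4 : 0 ≤ ‖p.2‖ ^ 2 * ‖p.2‖ ^ 2 := by positivity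
    nlinarith
  · obtain ⟨rfl, rfl⟩ := comp_pts ht hs h
    simp [sigma, shape, hess_uu, hess_vv]
  · rw [glue]
    exact ((PP_smooth _).add (expNegInvGlue.contDiff.comp contDiff_fst.neg)).contDiffOn
  · obtain ⟨-, h1, h2⟩ := hp
    have h3 := expNegInvGlue.pos_of_pos h1
    have h4 : 0 ≤ (‖p.2‖ ^ 2) ^ 2 := by positivity
    simp only [uu, vv, PP]
    exact ne_of_gt (by nlinarith)
  · obtain ⟨-, h1, h2⟩ := hp
    have h3 : 0 < ‖p.2‖ := norm_pos_iff.2 h0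
    simp only [vv, PP]
    exact ne_of_gt (mul_pos (by positivity) (by linarith))

end Pool.Agent.Results.MP_4ba699_an.Counter
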